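import Pool.Agent.N669.CQ.Stm

set_option autoImplicit false

/-!
# Project CQ (helper669, after helper658), part TIL: tilting a side of the rectangle
-/

namespace Pool.Agent.N559.CQ

open MeasureTheory Set Pool.Agent.N669.CQ

theorem half {S : Set P} (p q r : ℝ) (h : ∀ z ∈ S, p * z.1 + q * z.2 ≤ r) :
    ∀ z ∈ convexHull ℝ S, p * z.1 + q * z.2 ≤ r := by
  have hc : Convex ℝ {z : P | p * z.1 + q * z.2 ≤ r} := by
    intro x hx y hy a b ha hb hab
    have hx' : p * x.1 + q * x.2 ≤ r := hx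
    have hy' : p * y.1 + q * y.2 ≤ r := hy
    show p * (a • x + b • y).1 + q * (a • x + b • y).2 ≤ r
    simp only [Prod.fst_add, Prod.snd_add, Prod.smul_fst, Prod.smul_snd, smul_eq_mul]
    have h1 : a * (p * x.1 + q * x.2) ≤ a * r := mul_le_mul_of_nonneg_left hx' ha
    have h2 : b * (p * y.1 + q * y.2) ≤ b * r := mul_le_mul_of_nonneg_left hy' hb
    have h3 : a * r + b * r = r := by rw [← add_mul, hab, one_mul]
    nlinarith
  intro z hz
  exact convexHull_min h hc hz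

theorem octhalf {x1 y2 x3 y4 h1 h2 h3 h4 : ℝ} (p q r : ℝ) (c1 : 0 ≤ r) (c2 : p ≤ r)
    (c3 : p + q ≤ r) (c4 : q ≤ r) (c5 : p * x1 - q * h1 ≤ r) (c6 : p * (1 + h2) + q * y2 ≤ r)
    (c7 : p * x3 + q * (1 + h3) ≤ r) (c8 : -(p * h4) + q * y4 ≤ r) :
    ∀ z ∈ oct x1 y2 x3 y4 h1 h2 h3 h4, p * z.1 + q * z.2 ≤ r := by
  unfold oct
  apply half
  intro z hz
  simp only [mem_insert_iff, mem_singleton_iff] at hz
  rcases hz with rfl | rfl | rfl | rfl | rfl | rfl | rfl | rfl <;> dsimp only <;> linarith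

theorem t_TIL (h : S_MID) : S_TIL := by
  intro x1 y2 x3 y4 h1 h2 h3 h4 hOP hNN e13 e24 hh2 hh3
  obtain ⟨⟨a1, a1'⟩, ⟨a2, a2'⟩, ⟨a3, a3'⟩, ⟨a4, a4'⟩, b1, b2, b3, b4⟩ := hOP
  have hs : √2 * √2 = (2 : ℝ) := Real.mul_self_sqrt (by norm_num)
  have hs0 : 0 < √2 := Real.sqrt_pos.2 (by norm_num)
  obtain ⟨K, hK⟩ : ∃ K, K = oct x1 y2 x3 y4 h1 h2 h3 h4 := ⟨_, rfl⟩
  have F1 : ∀ z ∈ K, z.1 ≤ 1 + h2 := by
    intro z hz
    rw [hK] at hz
    have := octhalf (x1 := x1) (y2 := y2) (x3 := x3) (y4 := y4) (h1 := h1) (h2 := h2) (h3 := h3)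
      (h4 := h4) 1 0 (1 + h2) (by linarith) (by linarith) (by linarith) (by linarith)
      (by linarith) (by linarith) (by linarith) (by linarith) z hz
    linarith
  have F2 : ∀ z ∈ K, -h4 ≤ z.1 := by
    intro z hz
    rw [hK] at hz
    have := octhalf (x1 := x1) (y2 := y2) (x3 := x3) (y4 := y4) (h1 := h1) (h2 := h2) (h3 := h3)
      (h4 := h4) (-1) 0 h4 (by linarith) (by linarith) (by linarith) (by linarith)
      (by linarith) (by linarith) (by linarith) (by linarith) z hz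
    linarith
  have F3 : ∀ z ∈ K, z.2 ≤ 1 + h3 := by
    intro z hz
    rw [hK] at hz
    have := octhalf (x1 := x1) (y2 := y2) (x3 := x3) (y4 := y4) (h1 := h1) (h2 := h2) (h3 := h3)
      (h4 := h4) 0 1 (1 + h3) (by linarith) (by linarith) (by linarith) (by linarith)
      (by linarith) (by linarith) (by linarith) (by linarith) z hz
    linarith
  have F4 : ∀ z ∈ K, -h1 ≤ z.2 := by
    intro z hz
    rw [hK] at hz
    have := octhalf (x1 := x1) (y2 := y2) (x3 := x3) (y4 := y4) (h1 := h1) (h2 := h2) (h3 := h3)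
      (h4 := h4) 0 (-1) h1 (by linarith) (by linarith) (by linarith) (by linarith)
      (by linarith) (by linarith) (by linarith) (by linarith) z hz
    linarith
  -- the highest point is unique
  have UT : ∀ z ∈ K, z.2 = 1 + h3 → z.1 = x3 := by
    intro z hz hz2
    rw [hK] at hz
    apply le_antisymm
    · obtain ⟨C, hC0, hC⟩ : ∃ C : ℝ, 0 < C ∧ C * h3 = 1 + h2 :=
        ⟨(1 + h2) / h3, by positivity, div_mul_cancel₀ _ hh3.ne'⟩
      have := octhalf (x1 := x1) (y2 := y2) (x3 := x3) (y4 := y4) (h1 := h1) (h2 := h2) (h3 := h3)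
        (h4 := h4) 1 C (x3 + C * (1 + h3)) (by nlinarith) (by nlinarith) (by nlinarith)
        (by nlinarith) (by nlinarith) (by nlinarith) (by nlinarith) (by nlinarith) z hz
      rw [hz2] at this
      linarith
    · obtain ⟨C, hC0, hC⟩ : ∃ C : ℝ, 0 < C ∧ C * h3 = 1 + h4 :=
        ⟨(1 + h4) / h3, by positivity, div_mul_cancel₀ _ hh3.ne'⟩
      have := octhalf (x1 := x1) (y2 := y2) (x3 := x3) (y4 := y4) (h1 := h1) (h2 := h2) (h3 := h3)
        (h4 := h4) (-1) C (-x3 + C * (1 + h3)) (by nlinarith) (by nlinarith) (by nlinarith)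
        (by nlinarith) (by nlinarith) (by nlinarith) (by nlinarith) (by nlinarith) z hz
      rw [hz2] at this
      linarith
  -- the rightmost point is unique
  have UR : ∀ z ∈ K, z.1 = 1 + h2 → z.2 = y2 := by
    intro z hz hz2
    rw [hK] at hz
    apply le_antisymm
    · obtain ⟨C, hC0, hC⟩ : ∃ C : ℝ, 0 < C ∧ C * h2 = 1 + h3 :=
        ⟨(1 + h3) / h2, by positivity, div_mul_cancel₀ _ hh2.ne'⟩
      have := octhalf (x1 := x1) (y2 := y2) (x3 := x3) (y4 := y4) (h1 := h1) (h2 := h2) (h3 := h3)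
        (h4 := h4) C 1 (y2 + C * (1 + h2)) (by nlinarith) (by nlinarith) (by nlinarith)
        (by nlinarith) (by nlinarith) (by nlinarith) (by nlinarith) (by nlinarith) z hz
      rw [hz2] at this
      linarith
    · obtain ⟨C, hC0, hC⟩ : ∃ C : ℝ, 0 < C ∧ C * h2 = 1 + h1 :=
        ⟨(1 + h1) / h2, by positivity, div_mul_cancel₀ _ hh2.ne'⟩
      have := octhalf (x1 := x1) (y2 := y2) (x3 := x3) (y4 := y4) (h1 := h1) (h2 := h2) (h3 := h3)
        (h4 := h4) C (-1) (-y2 + C * (1 + h2)) (by nlinarith) (by nlinarith) (by nlinarith)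
        (by nlinarith) (by nlinarith) (by nlinarith) (by nlinarith) (by nlinarith) z hz
      rw [hz2] at this
      linarith
  rw [← hK] at hNN
  -- the quadrilaterals
  have key : ∀ u : ℝ, 0 ≤ u → u ≤ h2 →
      (∀ z ∈ K, 0 ≤ 2 * u * (z.2 + h1) - (1 + h1 + h3) * (z.1 - (1 + h2) + u)) →
      Mi K (-h4, -h1) (1 + h2 - u, -h1) (1 + h2 + u, 1 + h3) (-h4, 1 + h3) := by
    intro u hu hu2 hside
    have hV : 1 + h1 + h3 = √2 := by linarith
    have hW : 1 + h2 + h4 = √2 := by linarith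
    have hWu : 0 < 1 + h2 + h4 - u := by linarith
    have hV0 : 0 < 1 + h1 + h3 := by linarith
    refine ⟨⟨⟨?_, ?_, ?_, ?_⟩, ⟨?_, ?_, ?_, ?_⟩⟩, ?_⟩
    · simp only [cr, Prod.fst_sub, Prod.snd_sub]
      nlinarith [mul_pos hV0 hWu]
    · simp only [cr, Prod.fst_sub, Prod.snd_sub]
      nlinarith [mul_pos hV0 hWu]
    · simp only [cr, Prod.fst_sub, Prod.snd_sub]
      have : 0 < (1 + h1 + h3) * (1 + h2 + h4 + u) := mul_pos hV0 (by linarith)
      nlinarith
    · simp only [cr, Prod.fst_sub, Prod.snd_sub]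
      have : 0 < (1 + h1 + h3) * (1 + h2 + h4 + u) := mul_pos hV0 (by linarith)
      nlinarith
    · intro z hz
      simp only [cr, Prod.fst_sub, Prod.snd_sub]
      have := mul_nonneg hWu.le (by linarith [F4 z hz] : 0 ≤ z.2 + h1)
      nlinarith
    · intro z hz
      simp only [cr, Prod.fst_sub, Prod.snd_sub]
      have := hside z hz
      nlinarith
    · intro z hz
      simp only [cr, Prod.fst_sub, Prod.snd_sub]
      have := mul_nonneg (by linarith : 0 ≤ 1 + h2 + h4 + u) (by linarith [F3 z hz] : 0 ≤ 1 + h3 - z.2)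
      nlinarith
    · intro z hz
      simp only [cr, Prod.fst_sub, Prod.snd_sub]
      have := mul_nonneg hV0.le (by linarith [F2 z hz] : 0 ≤ z.1 + h4)
      nlinarith
    · intro a' b' c' d' hCi
      have h5 := hNN.min a' b' c' d' hCi
      have h6 : ar (-h4, -h1) (1 + h2 - u, -h1) (1 + h2 + u, 1 + h3) (-h4, 1 + h3) =
          (1 + h2 + h4) * (1 + h1 + h3) := by
        simp only [ar, cr, Prod.fst_sub, Prod.snd_sub]
        ring
      rw [h6, hV, hW, hs]
      exact h5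
  -- the rectangle
  have hR := h K hNN.bd _ _ _ _ (key 0 le_rfl hh2.le (fun z hz => by
    have := mul_nonneg (by linarith : 0 ≤ 1 + h1 + h3) (by linarith [F1 z hz] : 0 ≤ 1 + h2 - z.1)
    nlinarith))
  have hy2 : (-h1 + (1 + h3)) / 2 = y2 := UR _ hR.2.1 (by simp [md])
  have hx3 : (1 + h2 + 0 + -h4) / 2 = x3 := UT _ hR.2.2.1 (by simp [md])
  -- the tilted side
  obtain ⟨e, he0, he⟩ : ∃ e : ℝ, 0 < e ∧ e * (1 + h1) = h2 :=
    ⟨h2 / (1 + h1), by positivity, div_mul_cancel₀ _ (by positivity)⟩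
  have hg : 0 < (1 + h1 + h3) / 2 := by linarith
  have hu : e * ((1 + h1 + h3) / 2) ≤ h2 := by
    rw [← he]
    exact mul_le_mul_of_nonneg_left (by linarith) he0.le
  have hT := h K hNN.bd _ _ _ _ (key (e * ((1 + h1 + h3) / 2)) (by positivity) hu (fun z hz => by
    rw [hK] at hz
    have h5 := octhalf (x1 := x1) (y2 := y2) (x3 := x3) (y4 := y4) (h1 := h1) (h2 := h2) (h3 := h3)
      (h4 := h4) 1 (-e) (1 + h2 - e * y2) (by nlinarith) (by nlinarith) (by nlinarith)
      (by nlinarith) (by nlinarith) (by nlinarith) (by nlinarith) (by nlinarith) z hz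
    have h6 := mul_nonneg (by linarith : 0 ≤ 1 + h1 + h3)
      (by linarith : 0 ≤ 1 + h2 - e * y2 - (1 * z.1 + -e * z.2))
    have h7 : 2 * (e * ((1 + h1 + h3) / 2)) * (z.2 + h1) -
        (1 + h1 + h3) * (z.1 - (1 + h2) + e * ((1 + h1 + h3) / 2)) =
        (1 + h1 + h3) * (1 + h2 - e * y2 - (1 * z.1 + -e * z.2)) := by
      rw [← hy2]; ring
    rw [h7]
    exact h6))
  have hx3' : (1 + h2 + e * ((1 + h1 + h3) / 2) + -h4) / 2 = x3 := UT _ hT.2.2.1 (by simp [md])
  have h8 : 0 < e * ((1 + h1 + h3) / 2) := by positivity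
  linarith

end Pool.Agent.N559.CQ
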